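import Mathlib
import Pool.Agent.Helper100.HyperTicTac

namespace Pool.Agent.Results.MP_03ec6c_co.SmallDimensions

open Finset Pool.Agent.Helper100.HyperTicTac

/-- `e` is an edge of `H(k,n)`: a `k`-element set of vertices lying on one straight line of `ℝ^n`.  The vertex
with coordinates `x 0 + 1, x 1 + 1, …` (all in `{1, …, k}`) is given by the function `x : Fin n → Fin k`. -/
def IsEdge (k n : ℕ) (e : Finset (Fin n → Fin k)) : Prop :=
  e.card = k ∧ ∃ a v : Fin n → ℝ, v ≠ 0 ∧
    ∀ x ∈ e, ∃ t : ℝ, ∀ i, ((x i : ℕ) : ℝ) + 1 = a i + t * v i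

/-- the vertices of `H(k,n)` can be split into two classes so that no edge lies inside one class -/
def TwoColorable (k n : ℕ) : Prop :=
  ∃ c : (Fin n → Fin k) → Bool, ∀ e, IsEdge k n e → ∃ x ∈ e, ∃ y ∈ e, c x ≠ c y

/-! ### edges and patterns -/

theorem pt_inj {k n : ℕ} {p : Fin n → Fin k ⊕ Bool} (hp : Active p) : Function.Injective (pt p) := by
  intro s t h
  obtain ⟨i, b, hb⟩ := hp
  have h1 := congrFun h i
  cases b
  · simp only [pt, hb, cval] at h1
    exact Fin.rev_injective h1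
  · simpa only [pt, hb, cval] using h1

theorem pt_edge {k n : ℕ} {p : Fin n → Fin k ⊕ Bool} (hp : Active p) :
    IsEdge k n (univ.image (pt p)) := by
  refine ⟨?_, ?_⟩
  · rw [Finset.card_image_of_injective _ (pt_inj hp)]; simp
  · refine ⟨fun i => match p i with
      | .inl c => ((c : ℕ) : ℝ) + 1
      | .inr true => 1
      | .inr false => (k : ℝ), fun i => match p i with
      | .inl _ => 0
      | .inr true => 1
      | .inr false => -1, ?_, ?_⟩
    · intro h
      obtain ⟨i, b, hb⟩ := hp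
      have h1 := congrFun h i
      cases b
      · simp [hb] at h1
      · simp [hb] at h1
    · intro x hx
      rw [Finset.mem_image] at hx
      obtain ⟨t, _, rfl⟩ := hx
      refine ⟨((t : ℕ) : ℝ), fun i => ?_⟩
      rcases hq : p i with c | b
      · simp [pt, hq, cval]
      · cases b
        · have h1 : ((t.rev : Fin k) : ℕ) + ((t : ℕ) + 1) = k := by
            rw [Fin.val_rev]; omega
          have h2 : (((t.rev : Fin k) : ℕ) : ℝ) + (((t : ℕ) : ℝ) + 1) = (k : ℝ) := by exact_mod_cast h1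
          simp only [pt, hq, cval]
          linarith
        · simp only [pt, hq, cval]
          ring

theorem strictMono_id {k : ℕ} {g : Fin k → Fin k} (hg : StrictMono g) (s : Fin k) : g s = s :=
  le_antisymm hg.apply_le hg.le_apply

theorem edge_pt {k n : ℕ} (hk : 0 < k) {e : Finset (Fin n → Fin k)} (he : IsEdge k n e) :
    ∃ p, Active p ∧ ∀ t, pt p t ∈ e := by
  obtain ⟨hc, a, v, hv, hl⟩ := he
  obtain ⟨i0, hi0⟩ : ∃ i, v i ≠ 0 := by
    by_contra h
    push Not at h
    exact hv (funext h)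
  have hinj : Set.InjOn (fun x : Fin n → Fin k => x i0) e := by
    intro x hx y hy hxy
    obtain ⟨s, hs⟩ := hl x hx
    obtain ⟨t, ht⟩ := hl y hy
    have h1 : s * v i0 = t * v i0 := by
      have h2 := hs i0
      have h3 := ht i0
      have h4 : x i0 = y i0 := hxy
      rw [h4] at h2
      linarith
    have h5 : s = t := mul_right_cancel₀ hi0 h1
    subst h5
    funext i
    have h6 : ((x i : ℕ) : ℝ) = ((y i : ℕ) : ℝ) := by linarith [hs i, ht i]
    exact Fin.ext (by exact_mod_cast h6)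
  have hsurj : e.image (fun x : Fin n → Fin k => x i0) = univ := by
    apply Finset.eq_univ_of_card
    rw [Finset.card_image_of_injOn hinj, hc]; simp
  have hex : ∀ s : Fin k, ∃ x ∈ e, x i0 = s := by
    intro s
    have : s ∈ e.image (fun x : Fin n → Fin k => x i0) := by rw [hsurj]; simp
    rw [Finset.mem_image] at this
    exact this
  choose f hf hf0 using hex
  have haff : ∀ j s, (((f s) j : ℕ) : ℝ) = (a j - 1 + (1 - a i0) * (v j / v i0)) + (v j / v i0) * ((s : ℕ) : ℝ) := by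
    intro j s
    obtain ⟨t, ht⟩ := hl (f s) (hf s)
    have h0 := ht i0
    rw [hf0 s] at h0
    have h1 : t = (((s : ℕ) : ℝ) + 1 - a i0) / v i0 := by
      field_simp
      linarith
    have h2 := ht j
    rw [h1] at h2
    have : (((f s) j : ℕ) : ℝ) = a j - 1 + (((s : ℕ) : ℝ) + 1 - a i0) / v i0 * v j := by linarith
    rw [this]
    field_simp
    ring
  have key : ∀ j, ∃ q : Fin k ⊕ Bool, (∀ s, cval q s = f s j) ∧ (v j ≠ 0 → ∃ b, q = .inr b) := by
    intro j
    rcases lt_trichotomy (v j / v i0) 0 with h | h | h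
    · refine ⟨.inr false, fun s => ?_, fun _ => ⟨false, rfl⟩⟩
      have hm : StrictMono (fun s => (f s j).rev) := by
        intro s t hst
        show (f s j).rev < (f t j).rev
        rw [Fin.rev_lt_rev]
        have h1 : ((s : ℕ) : ℝ) < ((t : ℕ) : ℝ) := by exact_mod_cast hst
        have h2 : (((f t) j : ℕ) : ℝ) < (((f s) j : ℕ) : ℝ) := by
          rw [haff j s, haff j t]
          nlinarith
        exact_mod_cast h2
      have h3 : (f s j).rev = s := strictMono_id hm s
      have h4 := congrArg Fin.rev h3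
      rw [Fin.rev_rev] at h4
      exact h4.symm
    · refine ⟨.inl (f ⟨0, hk⟩ j), fun s => ?_, fun hv' => ?_⟩
      · show f ⟨0, hk⟩ j = f s j
        have h1 := haff j s
        have h2 := haff j ⟨0, hk⟩
        rw [h] at h1 h2
        have h3 : (((f ⟨0, hk⟩) j : ℕ) : ℝ) = (((f s) j : ℕ) : ℝ) := by
          rw [h1, h2]; ring
        exact Fin.ext (by exact_mod_cast h3)
      · exact absurd h (div_ne_zero hv' hi0)
    · refine ⟨.inr true, fun s => ?_, fun _ => ⟨true, rfl⟩⟩
      have hm : StrictMono (fun s => f s j) := by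
        intro s t hst
        have h1 : ((s : ℕ) : ℝ) < ((t : ℕ) : ℝ) := by exact_mod_cast hst
        have h2 : (((f s) j : ℕ) : ℝ) < (((f t) j : ℕ) : ℝ) := by
          rw [haff j s, haff j t]
          nlinarith
        exact_mod_cast h2
      exact (strictMono_id hm s).symm
  choose p hp hpa using key
  refine ⟨p, ?_, fun t => ?_⟩
  · obtain ⟨b, hb⟩ := hpa i0 hi0
    exact ⟨i0, b, hb⟩
  · have : pt p t = f t := by
      funext j
      exact hp j t
    rw [this]
    exact hf t

theorem tc_of_pc {k n : ℕ} (hk : 0 < k) (h : PC k n) : TwoColorable k n := by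
  obtain ⟨c, hc⟩ := h
  refine ⟨c, fun e he => ?_⟩
  obtain ⟨p, hp, hpe⟩ := edge_pt hk he
  obtain ⟨s, t, hst⟩ := hc p hp
  exact ⟨pt p s, hpe s, pt p t, hpe t, hst⟩

theorem pc_of_tc {k n : ℕ} (h : TwoColorable k n) : PC k n := by
  obtain ⟨c, hc⟩ := h
  refine ⟨c, fun p hp => ?_⟩
  obtain ⟨x, hx, y, hy, hxy⟩ := hc _ (pt_edge hp)
  rw [Finset.mem_image] at hx hy
  obtain ⟨s, _, rfl⟩ := hx
  obtain ⟨t, _, rfl⟩ := hy
  exact ⟨s, t, hxy⟩

/-! ### the result -/

theorem tc_of {k k0 n n0 h : ℕ} (hk0 : k0 = 2 * h + 1) (hp : PC k0 n0) (hk : k0 ≤ k) (hn : n ≤ n0) :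
    TwoColorable k n := by
  subst hk0
  exact tc_of_pc (by omega) (pc_odd hk (pc_mono (by omega) hn hp))

/-- All pairs `(k, 5)` and `(k, 6)` are settled, all pairs `(k, 7)` and `(k, 8)` except `(4, 7)` and `(4, 8)`, and
there are explicit ranges with `k` of logarithmic size in which `H(k,n)` is two-colourable. -/
theorem result :
    (∀ n, n = 5 ∨ n = 6 →
      (∀ k, 0 < k → (TwoColorable k n ↔ 4 ≤ k)) ∧
      IsGreatest {k | 0 < k ∧ ¬ TwoColorable k n} 3) ∧
    (∀ n, n = 7 ∨ n = 8 →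
      (∀ k, 0 < k → k ≠ 4 → (TwoColorable k n ↔ 5 ≤ k)) ∧
      (IsGreatest {k | 0 < k ∧ ¬ TwoColorable k n} 3 ∨ IsGreatest {k | 0 < k ∧ ¬ TwoColorable k n} 4)) ∧
    (∀ k n, (n ≤ 11 ∧ 7 ≤ k) ∨ (n ≤ 37 ∧ 9 ≤ k) ∨ (n ≤ 139 ∧ 11 ≤ k) ∨ (n ≤ 617 ∧ 13 ≤ k) ∨
      (n ≤ 1069 ∧ 15 ≤ k) → TwoColorable k n) := by
  have small : ∀ {k n : ℕ}, 0 < k → k ≤ 3 → 3 ≤ n → ¬ TwoColorable k n :=
    fun h1 h2 h3 h => not_pc_small h1 h2 h3 (pc_of_tc h)
  have five : ∀ {k n : ℕ}, 5 ≤ k → n ≤ 8 → TwoColorable k n :=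
    fun h1 h2 => tc_of (h := 2) rfl pc58 h1 h2
  have four : ∀ {n : ℕ}, n ≤ 6 → TwoColorable 4 n :=
    fun h => tc_of_pc (by norm_num) (pc_mono (by norm_num) h pc46)
  refine ⟨?_, ?_, ?_⟩
  · intro n hn
    have hn6 : 3 ≤ n ∧ n ≤ 6 := by omega
    have h1 : ∀ k, 0 < k → (TwoColorable k n ↔ 4 ≤ k) := by
      intro k hk
      constructor
      · intro h
        by_contra hlt
        exact small hk (by omega) hn6.1 h
      · intro h
        rcases Nat.lt_or_ge k 5 with h5 | h5
        · have : k = 4 := by omega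
          subst this
          exact four hn6.2
        · exact five h5 (by omega)
    refine ⟨h1, ⟨by norm_num, small (by norm_num) (by norm_num) hn6.1⟩, ?_⟩
    rintro k ⟨hk, hk2⟩
    rw [h1 k hk] at hk2
    omega
  · intro n hn
    have hn8 : 3 ≤ n ∧ n ≤ 8 := by omega
    have h1 : ∀ k, 0 < k → k ≠ 4 → (TwoColorable k n ↔ 5 ≤ k) := by
      intro k hk hk4
      constructor
      · intro h
        by_contra hlt
        exact small hk (by omega) hn8.1 h
      · intro h
        exact five h hn8.2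
    refine ⟨h1, ?_⟩
    by_cases h4 : TwoColorable 4 n
    · left
      refine ⟨⟨by norm_num, small (by norm_num) (by norm_num) hn8.1⟩, ?_⟩
      rintro k ⟨hk, hk2⟩
      rcases eq_or_ne k 4 with rfl | h
      · exact absurd h4 hk2
      · rw [h1 k hk h] at hk2
        omega
    · right
      refine ⟨⟨by norm_num, h4⟩, ?_⟩
      rintro k ⟨hk, hk2⟩
      rcases eq_or_ne k 4 with rfl | h
      · exact le_rfl
      · rw [h1 k hk h] at hk2
        omega
  · rintro k n (⟨h1, h2⟩ | ⟨h1, h2⟩ | ⟨h1, h2⟩ | ⟨h1, h2⟩ | ⟨h1, h2⟩)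
    · exact tc_of (h := 3) rfl pc7_11 h2 h1
    · exact tc_of (h := 4) rfl pc9_37 h2 h1
    · exact tc_of (h := 5) rfl pc11_139 h2 h1
    · exact tc_of (h := 6) rfl pc13_617 h2 h1
    · exact tc_of (h := 7) rfl pc15_1069 h2 h1

end Pool.Agent.Results.MP_03ec6c_co.SmallDimensions
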